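import Pool.Agent.Lib.MP_987c99_al.Proof

open MvPolynomial Pool.Agent.Lib.MP_987c99_al

namespace Pool.Agent.Results.MP_987c99_al.LozExceedsRank

/-- Over every field `k` of characteristic `p > 0` and for every `m ≥ 3`, the graded Poisson bracket
`{x_0, x_i} = x_i ^ 2`, `{x_i, x_j} = 0` on `k[x_0, ..., x_m]` has rank at most `p ^ 2` over its
Poisson center, while its log-ozone group has at least `p ^ m` elements. -/
theorem result (k : Type*) [Field k] (p : ℕ) (hp : p.Prime) [CharP k p] (m : ℕ) (hm : 3 ≤ m) :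
    ∃ B : PoissonBracket k (MvPolynomial (Fin (m + 1)) k),
      IsGraded B ∧
      (∀ i : Fin m, B.br (X 0) (X i.succ) = X i.succ ^ 2) ∧
      (∀ i j : Fin m, B.br (X i.succ) (X j.succ) = 0) ∧
      B.rank ≤ (p : Cardinal) ^ 2 ∧
      (p : Cardinal) ^ m ≤ Cardinal.mk B.loz ∧
      B.rank < Cardinal.mk B.loz := by
  have h1 := rank_le k m p hp (by omega)
  have h2 := loz_ge k m p
  refine ⟨ex k m, ex_graded k m, ex_zero_succ k m, ex_succ_succ k m, h1, h2,
    h1.trans_lt (lt_of_lt_of_le ?_ h2)⟩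
  exact_mod_cast Nat.pow_lt_pow_right hp.one_lt (by omega : 2 < m)

end Pool.Agent.Results.MP_987c99_al.LozExceedsRank
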